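import Pool.Agent.P.MP_8f228a_al.RankNec

/-! The closed groups on whose cosets the piecewise increasing permutations are transitive. -/

namespace Pool.Agent.Results.MP_8f228a_al.ClosedGroups

open Pool.Agent.P.MP_8f228a_al Pool.Agent.P.MP_8f228a_al.Cls

/-- The point `x` has a finite orbit under the pointwise stabiliser of `B` in `H`. -/
def FinOrb (H : Subgroup (Equiv.Perm ℕ)) (B : Finset ℕ) (x : ℕ) : Prop :=
  Set.Finite {y : ℕ | ∃ h ∈ H, (∀ b ∈ B, h b = b) ∧ h x = y}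

theorem result (H : Subgroup (Equiv.Perm ℕ))
    (hclosed : ∀ g : Equiv.Perm ℕ, (∀ n : ℕ, ∃ h ∈ H, ∀ x < n, h x = g x) → g ∈ H) :
    (∀ g : Equiv.Perm ℕ, ∃ s : Equiv.Perm ℕ, ∃ h ∈ H, g = s * h ∧
        ∃ (k : ℕ) (c : ℕ → Fin k), ∀ x y : ℕ, c x = c y → x < y → s x < s y) ↔
      ((∀ B : Finset ℕ, Set.Finite {x : ℕ | FinOrb H B x}) ∧
        ∃ k : ℕ, ∀ B : Finset ℕ, ∃ r : ℕ → Fin k, ∀ (T : Finset ℕ) (z : ℕ), z ∉ T →
          FinOrb H (B ∪ T) z → ¬ FinOrb H B z → ∃ t ∈ T, r t < r z) := by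
  constructor
  · intro h1
    have hM : Match H := match_of_fact fun g => by
      obtain ⟨s, h, a, b, c⟩ := h1 g
      exact ⟨s, h, c, a, b⟩
    exact ⟨locally_finite hM, ranked_of_match hM⟩
  · rintro ⟨hlf, k, hk⟩ g
    exact fact_of_ranked hlf hk hclosed g

end Pool.Agent.Results.MP_8f228a_al.ClosedGroups
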