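import Pool.Agent.P.MP_8f228a_al.AlgNec
import Pool.Agent.P.MP_8f228a_al.AlgSuff

/-! The piecewise increasing permutations are transitive on the copies of a transitive structure
exactly when the structure has no algebraicity, and then two pieces suffice. -/

namespace Pool.Agent.Results.MP_8f228a_al.NoAlgebraicity

open Pool.Agent.P.MP_8f228a_al Pool.Agent.P.MP_8f228a_al.Cls

theorem result (H : Subgroup (Equiv.Perm ℕ))
    (hclosed : ∀ g : Equiv.Perm ℕ, (∀ n : ℕ, ∃ h ∈ H, ∀ x < n, h x = g x) → g ∈ H)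
    (htrans : ∀ a b : ℕ, ∃ h ∈ H, h a = b) :
    List.TFAE
      [∀ g : Equiv.Perm ℕ, ∃ s : Equiv.Perm ℕ, ∃ h ∈ H, g = s * h ∧
          ∃ (k : ℕ) (c : ℕ → Fin k), ∀ x y : ℕ, c x = c y → x < y → s x < s y,
        ∀ g : Equiv.Perm ℕ, ∃ s : Equiv.Perm ℕ, ∃ h ∈ H, g = s * h ∧
          ∃ c : ℕ → Fin 2, ∀ x y : ℕ, c x = c y → x < y → s x < s y,
        ∀ (B : Finset ℕ) (x : ℕ), x ∉ B →
          Set.Infinite {y : ℕ | ∃ h ∈ H, (∀ b ∈ B, h b = b) ∧ h x = y}] := by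
  tfae_have 1 → 3 := by
    intro h1
    refine no_alg (match_of_fact fun g => ?_) htrans
    obtain ⟨s, h, a, b, c⟩ := h1 g
    exact ⟨s, h, c, a, b⟩
  tfae_have 3 → 2 := fun h3 => two_piece h3 hclosed
  tfae_have 2 → 1 := by
    intro h2 g
    obtain ⟨s, h, a, b, c⟩ := h2 g
    exact ⟨s, h, a, b, 2, c⟩
  tfae_finish

end Pool.Agent.Results.MP_8f228a_al.NoAlgebraicity
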